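import Pool.Agent.MWGR.StmtsF

set_option autoImplicit false

namespace Pool.Agent.MWGR.H32

open Pool.Agent.Helper14_MV Pool.Agent.Helper2_MV Pool.Agent.MVO Pool.Agent.MWL Pool.Agent.MWS
  Pool.Agent.MWH

/-- substitution does not change the powers of a fixed letter -/
theorem flat_rep (g : ℕ → List ℕ) (m x : ℕ) (h : g x = [x]) :
    (List.replicate m x).flatMap g = List.replicate m x := by
  induction m with
  | zero => rfl
  | succ m ih => rw [List.replicate_succ, List.flatMap_cons, h, ih]; rfl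

/-- the letters `1` move to the left of the letter `2` -/
theorem moveL (h1 : MWGP.GapStmt) (n : ℕ) (θ : FIC) (hB : BG n (RR θ)) (j : ℕ) :
    ∀ p : List ℕ, 1 ∈ p → 2 ∈ p → RR θ (p ++ (2 :: Y j)) (p ++ (Y j ++ [2])) := by
  induction j with
  | zero => intro p _ _; exact RR.refl _
  | succ j ih =>
    intro p hp1 hp2
    have e1 := (h1 n θ hB.ga hB.rn p (Y j) 2 1 hp2).2 hp1
    have e2 := ih (p ++ [1]) (by simp) (by simp [hp2])
    have e3 : (p ++ 1 :: 2 :: Y j) = (p ++ [1]) ++ (2 :: Y j) := by simp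
    have e4 : (p ++ [1]) ++ (Y j ++ [2]) = p ++ (Y (j + 1) ++ [2]) := by
      simp [Y, List.replicate_succ]
    have e5 : (p ++ (2 :: Y (j + 1))) = p ++ 2 :: 1 :: Y j := by
      simp [Y, List.replicate_succ]
    rw [e5]
    rw [e3] at e1
    rw [e4] at e2
    exact θ.trans e1 e2

/-- the tail -/
theorem tail3 (h1 : MWGP.GapStmt) (h2 : ExgStmt) (n : ℕ) (θ : FIC) (hB : BG n (RR θ))
    (p : List ℕ) (hp1 : 1 ∈ p) (hp2 : 2 ∈ p) :
    RR θ (p ++ ([3, 1, 2] ++ Y n)) (p ++ [3, 1, 2]) := by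
  have e1 := moveL h1 n θ hB n (p ++ [3, 1]) (by simp) (by simp [hp2])
  have e2 : (p ++ [3, 1]) ++ (2 :: Y n) = p ++ ([3, 1, 2] ++ Y n) := by simp
  have e3 : (p ++ [3, 1]) ++ (Y n ++ [2]) = (p ++ [3]) ++ (List.replicate (n + 1) 1 ++ [2]) := by
    simp [Y, List.replicate_succ]
  have hm : n + 1 ≡ 1 [MOD n] := by
    simp [Nat.ModEq]
  have e4 := (h2 n θ hB (p ++ [3]) [2] 1 (n + 1) 1 hm).1 (by simp [hp1]) (by omega) (by omega)
  have e5 : (p ++ [3]) ++ (List.replicate 1 1 ++ [2]) = p ++ [3, 1, 2] := by simp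
  rw [e2, e3] at e1
  rw [e5] at e4
  exact θ.trans e1 e4

theorem eat (h1 : MWGP.GapStmt) (h2 : ExgStmt) : EatStmt := by
  intro n θ hB c hE
  refine ⟨?_, ?_⟩
  · -- the tail `|ab`
    let g : ℕ → List ℕ := fun i => if i = 4 then [] else if i = 5 then Y (n - 1) else [i]
    have hs := RR.sub g hE
    have g0 : ∀ m : ℕ, (List.replicate m 0).flatMap g = List.replicate m 0 := fun m =>
      flat_rep g m 0 (by simp [g])
    have g1 : g 1 = [1] := by simp [g]
    have g2 : g 2 = [2] := by simp [g]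
    have g3 : g 3 = [3] := by simp [g]
    have g4 : g 4 = [] := by simp [g]
    have g5 : g 5 = Y (n - 1) := by simp [g]
    have hn := hB.pos
    have hY : Y (n - 1) ++ [1] = Y n := by
      have : n = (n - 1) + 1 := by omega
      conv_rhs => rw [this]
      simp [Y, List.replicate_succ']
    have hl : (X n ++ 1 :: (X (n + c) ++ 2 :: (X n ++ [3, 1, 4, 2, 5, 1]))).flatMap g =
        (X n ++ 1 :: (X (n + c) ++ 2 :: X n)) ++ ([3, 1, 2] ++ Y n) := by
      simp only [List.flatMap_append, List.flatMap_cons, g0, g1, g2, g3, g4, g5, List.flatMap_nil]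
      rw [← hY]
      simp
    have hr : (X (n + c) ++ 2 :: (X (n + (n - 1) * c) ++ 1 :: (X (n + c) ++
        [3, 1, 4, 2, 5, 1]))).flatMap g =
        (X (n + c) ++ 2 :: (X (n + (n - 1) * c) ++ 1 :: X (n + c))) ++ ([3, 1, 2] ++ Y n) := by
      simp only [List.flatMap_append, List.flatMap_cons, g0, g1, g2, g3, g4, g5, List.flatMap_nil]
      rw [← hY]
      simp
    rw [hl, hr] at hs
    have a1 := tail3 h1 h2 n θ hB (X n ++ 1 :: (X (n + c) ++ 2 :: X n)) (by simp) (by simp)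
    have a2 := tail3 h1 h2 n θ hB (X (n + c) ++ 2 :: (X (n + (n - 1) * c) ++ 1 :: X (n + c)))
      (by simp) (by simp)
    have a3 := θ.trans (RR.symm a1) (θ.trans hs a2)
    have b1 : (X n ++ 1 :: (X (n + c) ++ 2 :: X n)) ++ [3, 1, 2] =
        X n ++ 1 :: (X (n + c) ++ 2 :: (X n ++ [3, 1, 2])) := by simp
    have b2 : (X (n + c) ++ 2 :: (X (n + (n - 1) * c) ++ 1 :: X (n + c))) ++ [3, 1, 2] =
        X (n + c) ++ 2 :: (X (n + (n - 1) * c) ++ 1 :: (X (n + c) ++ [3, 1, 2])) := by simp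
    rw [b1, b2] at a3
    exact a3
  · intro k hk
    obtain ⟨m, rfl⟩ := Nat.exists_eq_add_of_le hk
    have hT : alt (3 + m) = [3, 1, 4, 2, 5, 1] ++
        ((List.range m).map (fun x => 3 + x)).flatMap (fun j => [3 + j, 1 + j % 2]) := by
      unfold alt
      rw [List.range_add, List.flatMap_append]
      rfl
    unfold Ec
    rw [hT]
    have := RR.append hE (RR.refl (β := θ)
      (((List.range m).map (fun x => 3 + x)).flatMap (fun j => [3 + j, 1 + j % 2])))
    simpa [List.append_assoc] using this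

end Pool.Agent.MWGR.H32
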